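import Pool.Agent.H5.FL.Stm

/-! # Crew FL, part OPT: optional stopping at a hitting time, by discretisation -/

set_option autoImplicit false

open MeasureTheory ProbabilityTheory Filter Topology
open scoped NNReal ENNReal

universe u

namespace H75.FL

open H5.FL

/-- the hitting time is at most `s` iff the set is hit up to time `s` -/
theorem opt_hit_iff {N : ℕ} {Ω : Type u} (c : ℝ) (m : ℝ≥0 → Ω → Fin N → ℝ) (ω : Ω)
    (hc : Continuous fun t => m t ω) (s : ℝ≥0) :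
    hT c m ω ≤ (s : ℝ≥0∞) ↔ ∃ j, ∃ r ≤ s, c ≤ m r ω j := by
  constructor
  · intro h
    by_contra hcon
    push Not at hcon
    let S : Set ℝ≥0 := {r | ∃ j, c ≤ m r ω j}
    have hSc : IsClosed S := by
      have : S = ⋃ j, {r | c ≤ m r ω j} := by ext r; simp [S]
      rw [this]
      apply isClosed_iUnion_of_finite
      intro j
      exact isClosed_le continuous_const ((continuous_apply j).comp hc)
    have hSn : S.Nonempty := by
      by_contra hne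
      have h1 : hT c m ω = ⊤ := by
        unfold hT
        rw [iInf₂_eq_top]
        intro r hr
        exact absurd ⟨r, hr⟩ hne
      rw [h1] at h
      exact absurd h (by simp)
    have hmem : sInf S ∈ S := hSc.csInf_mem hSn (OrderBot.bddBelow S)
    have hle : ((sInf S : ℝ≥0) : ℝ≥0∞) ≤ hT c m ω := by
      unfold hT
      refine le_iInf₂ fun r hr => ?_
      exact_mod_cast csInf_le (OrderBot.bddBelow S) hr
    have h2 : sInf S ≤ s := by exact_mod_cast hle.trans h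
    obtain ⟨j, hj⟩ := hmem
    exact absurd hj (not_le.2 (hcon j (sInf S) h2))
  · rintro ⟨j, r, hr, h⟩
    unfold hT
    exact (iInf₂_le r ⟨j, h⟩).trans (by exact_mod_cast hr)

theorem opt_sup_iff {N : ℕ} {Ω : Type u} (c : ℝ) (m : ℝ≥0 → Ω → Fin N → ℝ) (ω : Ω)
    (hc : Continuous fun t => m t ω) (s : ℝ≥0) (j : Fin N) (u : ℕ → Set.Iic s)
    (hu : DenseRange u) :
    (∃ r ≤ s, c ≤ m r ω j) ↔ ∀ l : ℕ, ∃ i : ℕ, c - 1 / ((l : ℝ) + 1) < m (u i : ℝ≥0) ω j := by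
  have hcj : Continuous fun t => m t ω j := (continuous_apply j).comp hc
  constructor
  · rintro ⟨r, hr, h⟩ l
    have hopen : IsOpen {x : Set.Iic s | c - 1 / ((l : ℝ) + 1) < m (x : ℝ≥0) ω j} :=
      isOpen_lt continuous_const (hcj.comp continuous_subtype_val)
    have hpos : (0 : ℝ) < 1 / ((l : ℝ) + 1) := by positivity
    obtain ⟨i, hi⟩ := hu.exists_mem_open hopen ⟨⟨r, hr⟩, by
      show c - 1 / ((l : ℝ) + 1) < m r ω j
      linarith⟩
    exact ⟨i, hi⟩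
  · intro h
    have hcomp : IsCompact (Set.Iic s) := by
      have : (Set.Iic s) = Set.Icc 0 s := by ext x; simp
      rw [this]; exact isCompact_Icc
    obtain ⟨r, hr, hmax⟩ := hcomp.exists_isMaxOn ⟨0, by simp⟩ hcj.continuousOn
    refine ⟨r, hr, ?_⟩
    by_contra hlt
    rw [not_le] at hlt
    obtain ⟨l, hl⟩ := exists_nat_one_div_lt (show (0 : ℝ) < c - m r ω j by linarith)
    obtain ⟨i, hi⟩ := h l
    have h1 : m (u i : ℝ≥0) ω j ≤ m r ω j := hmax (u i).2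
    linarith

theorem opt_meas {N : ℕ} {Ω : Type u} [mΩ : MeasurableSpace Ω] (obs : Filtration ℝ≥0 mΩ) (c : ℝ)
    (m : ℝ≥0 → Ω → Fin N → ℝ) (hc : ∀ ω, Continuous fun t => m t ω)
    (hm : ∀ t, Measurable[obs t] (m t)) (s : ℝ≥0) :
    MeasurableSet[obs s] {ω | (s : ℝ≥0∞) < hT c m ω} := by
  have : Nonempty (Set.Iic s) := ⟨⟨0, by simp⟩⟩
  let u : ℕ → Set.Iic s := TopologicalSpace.denseSeq (Set.Iic s)
  have hu : DenseRange u := TopologicalSpace.denseRange_denseSeq _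
  have hset : {ω | (s : ℝ≥0∞) < hT c m ω} =
      (⋃ j : Fin N, ⋂ l : ℕ, ⋃ i : ℕ, (fun ω => m (u i : ℝ≥0) ω j) ⁻¹' Set.Ioi (c - 1 / ((l : ℝ) + 1)))ᶜ := by
    ext ω
    simp only [Set.mem_setOf_eq, Set.mem_compl_iff, Set.mem_iUnion, Set.mem_iInter, Set.mem_preimage,
      Set.mem_Ioi]
    rw [← not_le, opt_hit_iff c m ω (hc ω) s]
    simp only [opt_sup_iff c m ω (hc ω) s _ u hu]
  rw [hset]
  refine MeasurableSet.compl (MeasurableSet.iUnion fun j => MeasurableSet.iInter fun l =>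
    MeasurableSet.iUnion fun i => ?_)
  have h1 : Measurable[obs s] (m (u i : ℝ≥0)) := (hm _).mono (obs.mono (u i).2) le_rfl
  have h2 : Measurable[obs s] (fun ω => m (u i : ℝ≥0) ω j) := (measurable_pi_apply j).comp h1
  exact h2 measurableSet_Ioi

/-- the discretised time `⌈τ n⌉ / n` -/
noncomputable def dt (n : ℕ) (τ : ℝ≥0) : ℝ≥0 := (⌈τ * n⌉₊ : ℝ≥0) / n

theorem dt_tendsto (τ : ℝ≥0) : Tendsto (fun n : ℕ => dt (n + 1) τ) atTop (𝓝 τ) := by
  have h1 : ∀ n : ℕ, τ ≤ dt (n + 1) τ := by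
    intro n
    unfold dt
    rw [le_div_iff₀ (by positivity)]
    exact Nat.le_ceil _
  have h2 : ∀ n : ℕ, dt (n + 1) τ ≤ τ + 1 / ((n : ℝ≥0) + 1) := by
    intro n
    unfold dt
    rw [div_le_iff₀ (by positivity)]
    have h3 := (Nat.ceil_lt_add_one (a := τ * ((n + 1 : ℕ) : ℝ≥0)) (by positivity)).le
    refine h3.trans ?_
    rw [add_mul]
    push_cast
    gcongr
    rw [one_div, inv_mul_cancel₀ (by positivity)]
  refine tendsto_of_tendsto_of_tendsto_of_le_of_le tendsto_const_nhds ?_ h1 h2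
  have h3 : Tendsto (fun n : ℕ => τ + 1 / ((n : ℝ≥0) + 1)) atTop (𝓝 (τ + 0)) :=
    tendsto_const_nhds.add tendsto_one_div_add_atTop_nhds_zero_nat
  rwa [add_zero] at h3

theorem dt_sum {Y : ℝ≥0 → ℝ} (n : ℕ) (hn : n ≠ 0) (t τ : ℝ≥0) (hτ : τ ≤ t) :
    Y (dt n τ) - Y 0 = ∑ k ∈ Finset.range ⌈t * n⌉₊,
      if ((k : ℝ≥0) / n) < τ then (Y (((k + 1 : ℕ) : ℝ≥0) / n) - Y ((k : ℝ≥0) / n)) else 0 := by
  have hn' : (0 : ℝ≥0) < n := by exact_mod_cast Nat.pos_of_ne_zero hn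
  have h1 : ∀ k : ℕ, ((k : ℝ≥0) / n) < τ ↔ k < ⌈τ * n⌉₊ := by
    intro k
    rw [div_lt_iff₀ hn', Nat.lt_ceil]
  simp only [h1]
  rw [← Finset.sum_filter]
  have h2 : (Finset.range ⌈t * n⌉₊).filter (fun k => k < ⌈τ * n⌉₊) = Finset.range ⌈τ * n⌉₊ := by
    ext k
    simp only [Finset.mem_filter, Finset.mem_range]
    constructor
    · exact fun h => h.2
    · intro h
      refine ⟨lt_of_lt_of_le h (Nat.ceil_le_ceil ?_), h⟩
      gcongr
  rw [h2, Finset.sum_range_sub (fun k : ℕ => Y ((k : ℝ≥0) / n))]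
  simp [dt]

theorem opt_limit {Ω : Type u} [mΩ : MeasurableSpace Ω] (P : Measure Ω) [IsProbabilityMeasure P]
    (t : ℝ≥0) (τ : Ω → ℝ≥0) (hτt : ∀ ω, τ ω ≤ t)
    (hτm : ∀ s : ℝ≥0, s < t → MeasurableSet {ω | s < τ ω})
    (Y : ℝ≥0 → Ω → ℝ) (hYc : ∀ ω, Continuous fun s => Y s ω) (hYm : ∀ s, Measurable (Y s))
    (B : ℝ) (hB : ∀ s ≤ t + 1, ∀ ω, |Y s ω| ≤ B) :
    Measurable (fun ω => Y (τ ω) ω) ∧
    Tendsto (fun n : ℕ => ∫ ω, Y (dt (n + 1) (τ ω)) ω ∂P) atTop (𝓝 (∫ ω, Y (τ ω) ω ∂P)) := by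
  have hmeas : ∀ n : ℕ, Measurable (fun ω => Y (dt (n + 1) (τ ω)) ω) := by
    intro n
    have h1 : (fun ω => Y (dt (n + 1) (τ ω)) ω) = fun ω => Y 0 ω +
        ∑ k ∈ Finset.range ⌈t * ((n + 1 : ℕ) : ℝ≥0)⌉₊,
        (if ((k : ℝ≥0) / ((n + 1 : ℕ) : ℝ≥0)) < τ ω then
          (Y (((k + 1 : ℕ) : ℝ≥0) / ((n + 1 : ℕ) : ℝ≥0)) ω - Y ((k : ℝ≥0) / ((n + 1 : ℕ) : ℝ≥0)) ω) else 0) := by
      funext ω
      rw [← dt_sum (Y := fun s => Y s ω) (n + 1) (by omega) t (τ ω) (hτt ω)]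
      ring
    rw [h1]
    refine (hYm 0).add (Finset.measurable_sum _ fun k hk => ?_)
    refine Measurable.ite ?_ ((hYm _).sub (hYm _)) measurable_const
    apply hτm
    rw [Finset.mem_range, Nat.lt_ceil] at hk
    rw [div_lt_iff₀ (by positivity)]
    exact hk
  have hlim : ∀ ω, Tendsto (fun n : ℕ => Y (dt (n + 1) (τ ω)) ω) atTop (𝓝 (Y (τ ω) ω)) := by
    intro ω
    exact ((hYc ω).tendsto (τ ω)).comp (dt_tendsto (τ ω))
  refine ⟨measurable_of_tendsto_metrizable hmeas (tendsto_pi_nhds.2 hlim), ?_⟩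
  refine tendsto_integral_of_dominated_convergence (fun _ => B)
    (fun n => (hmeas n).aestronglyMeasurable) (integrable_const B) ?_ ?_
  · intro n
    refine Eventually.of_forall fun ω => ?_
    rw [Real.norm_eq_abs]
    apply hB
    unfold dt
    rw [div_le_iff₀ (by positivity)]
    have h3 := (Nat.ceil_lt_add_one (a := τ ω * ((n + 1 : ℕ) : ℝ≥0)) (by positivity)).le
    refine h3.trans ?_
    rw [add_mul, one_mul]
    have h4 : (1 : ℝ≥0) ≤ ((n + 1 : ℕ) : ℝ≥0) := by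
      push_cast; exact le_add_self
    gcongr
    exact hτt ω
  · exact Eventually.of_forall hlim

theorem t_OPT : S_OPT.{u} := by
  intro Ω mΩ P hP obs N g ℓ m K c hgc hmc hgm hmm hgK hℓK hℓm hmart t
  -- the primitive
  let Λ : ℝ≥0 → Ω → ℝ := fun s ω => ∫ r in (0 : ℝ)..s, ℓ r.toNNReal ω
  have hjm : Measurable (fun p : Ω × ℝ => ℓ p.2.toNNReal p.1) := by
    have h1 : Measurable (fun p : Ω × ℝ => ((p.2.toNNReal, p.1) : ℝ≥0 × Ω)) :=
      (measurable_real_toNNReal.comp measurable_snd).prodMk measurable_fst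
    exact hℓm.comp h1
  have hsec : ∀ ω, Measurable (fun r : ℝ => ℓ r.toNNReal ω) := fun ω =>
    hjm.comp (measurable_const.prodMk measurable_id)
  have hint : ∀ ω a b, IntervalIntegrable (fun r : ℝ => ℓ r.toNNReal ω) volume a b := by
    intro ω a b
    rw [intervalIntegrable_iff]
    exact Measure.integrableOn_of_bounded (M := K) (by simp) (hsec ω).aestronglyMeasurable
      (Eventually.of_forall fun r => hℓK _ _)
  have hΛc : ∀ ω, Continuous fun s => Λ s ω := by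
    intro ω
    exact (intervalIntegral.continuous_primitive (fun a b => hint ω a b) 0).comp
      NNReal.continuous_coe
  have hΛm : ∀ s, Measurable (Λ s) := by
    intro s
    have h1 : (Λ s) = fun ω => ∫ r in Set.Ioc (0 : ℝ) s, ℓ r.toNNReal ω := by
      funext ω
      exact intervalIntegral.integral_of_le s.2
    rw [h1]
    exact (hjm.stronglyMeasurable.integral_prod_right (ν := volume.restrict (Set.Ioc (0 : ℝ) s))).measurable
  have hKn : ∀ ω : Ω, 0 ≤ K := fun ω => (abs_nonneg _).trans (hgK 0 ω)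
  have hΛb : ∀ s ≤ t + 1, ∀ ω, |Λ s ω| ≤ K * (t + 1) := by
    intro s hs ω
    have h1 := intervalIntegral.norm_integral_le_of_norm_le_const (a := (0 : ℝ)) (b := (s : ℝ))
      (C := K) (f := fun r : ℝ => ℓ r.toNNReal ω) (fun r _ => hℓK _ _)
    rw [Real.norm_eq_abs, sub_zero, abs_of_nonneg (NNReal.coe_nonneg s)] at h1
    have h2 : (s : ℝ) ≤ t + 1 := by exact_mod_cast hs
    exact h1.trans (mul_le_mul_of_nonneg_left h2 (hKn ω))
  -- the stopped time
  let τ : Ω → ℝ≥0 := fun ω => (min (hT c m ω) t).toNNReal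
  have hτcoe : ∀ ω, ((τ ω : ℝ≥0) : ℝ≥0∞) = min (hT c m ω) t := by
    intro ω
    exact ENNReal.coe_toNNReal (ne_of_lt (lt_of_le_of_lt (min_le_right _ _) ENNReal.coe_lt_top))
  have hτt : ∀ ω, τ ω ≤ t := by
    intro ω
    have : ((τ ω : ℝ≥0) : ℝ≥0∞) ≤ t := by rw [hτcoe]; exact min_le_right _ _
    exact_mod_cast this
  have hτlt : ∀ (s : ℝ≥0), s < t → {ω | s < τ ω} = {ω | (s : ℝ≥0∞) < hT c m ω} := by
    intro s hs
    ext ω
    simp only [Set.mem_setOf_eq]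
    rw [← ENNReal.coe_lt_coe, hτcoe, lt_min_iff]
    constructor
    · exact fun h => h.1
    · exact fun h => ⟨h, by exact_mod_cast hs⟩
  have hτobs : ∀ s : ℝ≥0, s < t → MeasurableSet[obs s] {ω | s < τ ω} := by
    intro s hs
    rw [hτlt s hs]
    exact opt_meas obs c m hmc hmm s
  have hτm : ∀ s : ℝ≥0, s < t → MeasurableSet {ω | s < τ ω} := fun s hs => obs.le s _ (hτobs s hs)
  -- the process
  let Mm : ℝ≥0 → Ω → ℝ := fun s ω => g s ω - Λ s ω
  have hgm' : ∀ s, Measurable (g s) := fun s => (hgm s).mono (obs.le s) le_rfl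
  have hMc : ∀ ω, Continuous fun s => Mm s ω := fun ω => (hgc ω).sub (hΛc ω)
  have hMm : ∀ s, Measurable (Mm s) := fun s => (hgm' s).sub (hΛm s)
  have hMb : ∀ s ≤ t + 1, ∀ ω, |Mm s ω| ≤ K + K * (t + 1) := by
    intro s hs ω
    exact (abs_sub _ _).trans (add_le_add (hgK s ω) (hΛb s hs ω))
  obtain ⟨hg1, _⟩ := opt_limit P t τ hτt hτm g hgc hgm' K (fun s _ ω => hgK s ω)
  obtain ⟨hΛ1, _⟩ := opt_limit P t τ hτt hτm Λ hΛc hΛm _ hΛb
  obtain ⟨_, hM2⟩ := opt_limit P t τ hτt hτm Mm hMc hMm _ hMb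
  have intb : ∀ (Z : Ω → ℝ) (B : ℝ), Measurable Z → (∀ ω, |Z ω| ≤ B) → Integrable Z P := by
    intro Z B hZ hZB
    exact Integrable.of_bound hZ.aestronglyMeasurable B (Eventually.of_forall hZB)
  -- each discretised expectation
  have hconst : ∀ n : ℕ, ∫ ω, Mm (dt (n + 1) (τ ω)) ω ∂P = ∫ ω, g 0 ω ∂P := by
    intro n
    have hpos : (0 : ℝ≥0) < ((n + 1 : ℕ) : ℝ≥0) := by positivity
    have h1 : ∀ ω, Mm (dt (n + 1) (τ ω)) ω = Mm 0 ω +
        ∑ k ∈ Finset.range ⌈t * ((n + 1 : ℕ) : ℝ≥0)⌉₊,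
        Set.indicator {ω | ((k : ℝ≥0) / ((n + 1 : ℕ) : ℝ≥0)) < τ ω}
          (fun ω => Mm (((k + 1 : ℕ) : ℝ≥0) / ((n + 1 : ℕ) : ℝ≥0)) ω
            - Mm ((k : ℝ≥0) / ((n + 1 : ℕ) : ℝ≥0)) ω) ω := by
      intro ω
      have h2 := dt_sum (Y := fun s => Mm s ω) (n + 1) (by omega) t (τ ω) (hτt ω)
      simp only [Set.indicator_apply, Set.mem_setOf_eq]
      rw [← h2]; ring
    have hle : ∀ k ∈ Finset.range ⌈t * ((n + 1 : ℕ) : ℝ≥0)⌉₊,
        (k : ℝ≥0) / ((n + 1 : ℕ) : ℝ≥0) < t := by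
      intro k hk
      rw [Finset.mem_range, Nat.lt_ceil] at hk
      rw [div_lt_iff₀ hpos]
      exact hk
    have hle2 : ∀ k ∈ Finset.range ⌈t * ((n + 1 : ℕ) : ℝ≥0)⌉₊,
        ((k + 1 : ℕ) : ℝ≥0) / ((n + 1 : ℕ) : ℝ≥0) ≤ t + 1 := by
      intro k hk
      have h3 := hle k hk
      have h4 : ((k + 1 : ℕ) : ℝ≥0) / ((n + 1 : ℕ) : ℝ≥0) =
          (k : ℝ≥0) / ((n + 1 : ℕ) : ℝ≥0) + 1 / ((n + 1 : ℕ) : ℝ≥0) := by
        push_cast; rw [add_div]
      rw [h4]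
      have h5 : 1 / ((n + 1 : ℕ) : ℝ≥0) ≤ 1 := by
        rw [div_le_one hpos]
        push_cast; exact le_add_self
      exact add_le_add h3.le h5
    have hintk : ∀ s ≤ t + 1, Integrable (Mm s) P := fun s hs => intb _ _ (hMm s) (hMb s hs)
    simp_rw [h1]
    rw [integral_add (hintk 0 (by simp)) ?_, integral_finsetSum]
    · have h5 : ∀ k ∈ Finset.range ⌈t * ((n + 1 : ℕ) : ℝ≥0)⌉₊,
          ∫ ω, Set.indicator {ω | ((k : ℝ≥0) / ((n + 1 : ℕ) : ℝ≥0)) < τ ω}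
          (fun ω => Mm (((k + 1 : ℕ) : ℝ≥0) / ((n + 1 : ℕ) : ℝ≥0)) ω
            - Mm ((k : ℝ≥0) / ((n + 1 : ℕ) : ℝ≥0)) ω) ω ∂P = 0 := by
        intro k hk
        set s0 : ℝ≥0 := (k : ℝ≥0) / ((n + 1 : ℕ) : ℝ≥0) with hs0
        set s1 : ℝ≥0 := ((k + 1 : ℕ) : ℝ≥0) / ((n + 1 : ℕ) : ℝ≥0) with hs1
        have hs01 : s0 ≤ s1 := by
          rw [hs0, hs1]
          gcongr
          omega
        rw [integral_indicator (hτm s0 (hle k hk))]
        have h6 := hmart s0 s1 hs01 _ (hτobs s0 (hle k hk))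
        have h7 : ∀ ω, Mm s1 ω - Mm s0 ω = (g s1 ω - g s0 ω) -
            (∫ r in (s0 : ℝ)..s1, ℓ r.toNNReal ω) := by
          intro ω
          have h8 : (∫ r in (s0 : ℝ)..s1, ℓ r.toNNReal ω) = Λ s1 ω - Λ s0 ω := by
            rw [← intervalIntegral.integral_interval_sub_left (hint ω 0 s1) (hint ω 0 s0)]
          rw [h8]
          simp only [Mm]; ring
        simp_rw [h7]
        rw [integral_sub, h6, sub_self]
        · exact (intb _ (K + K) ((hgm' s1).sub (hgm' s0))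
            (fun ω => (abs_sub _ _).trans (add_le_add (hgK _ _) (hgK _ _)))).integrableOn
        · have h9 : (fun ω => ∫ r in (s0 : ℝ)..s1, ℓ r.toNNReal ω) = fun ω => Λ s1 ω - Λ s0 ω := by
            funext ω
            rw [← intervalIntegral.integral_interval_sub_left (hint ω 0 s1) (hint ω 0 s0)]
          rw [h9]
          exact (intb _ (K * (t + 1) + K * (t + 1)) ((hΛm s1).sub (hΛm s0))
            (fun ω => (abs_sub _ _).trans (add_le_add (hΛb _ (hle2 k hk) ω)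
              (hΛb _ ((hle k hk).le.trans le_self_add) ω)))).integrableOn
      rw [Finset.sum_eq_zero h5, add_zero]
      congr 1
      funext ω
      simp only [Mm, Λ, NNReal.coe_zero, intervalIntegral.integral_same, sub_zero]
    · intro k hk
      exact ((hintk _ (hle2 k hk)).sub (hintk _ ((hle k hk).le.trans le_self_add))).indicator
        (hτm _ (hle k hk))
    · refine integrable_finsetSum _ fun k hk => ?_
      exact ((hintk _ (hle2 k hk)).sub (hintk _ ((hle k hk).le.trans le_self_add))).indicator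
        (hτm _ (hle k hk))
  have hfin : ∫ ω, Mm (τ ω) ω ∂P = ∫ ω, g 0 ω ∂P := by
    refine tendsto_nhds_unique hM2 ?_
    simp_rw [hconst]
    exact tendsto_const_nhds
  have hsplit : ∫ ω, Mm (τ ω) ω ∂P = ∫ ω, g (τ ω) ω ∂P - ∫ ω, Λ (τ ω) ω ∂P := by
    refine integral_sub ?_ ?_
    · exact intb _ K hg1 (fun ω => hgK _ _)
    · exact intb _ _ hΛ1 (fun ω => hΛb _ ((hτt ω).trans le_self_add) ω)
  have : ∫ ω, g (τ ω) ω ∂P - ∫ ω, g 0 ω ∂P = ∫ ω, Λ (τ ω) ω ∂P := by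
    rw [← hfin, hsplit]; ring
  exact this

end H75.FL
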