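import Pool.Agent.H5.FL.Stm

/-! # Crew FL, part DHF: the numerical inequality -/

set_option autoImplicit false

namespace H75.FL

open H5.FL

theorem dhf_eq (x : ℝ) (hx : 2 ≤ x) :
    gg x (1 / 2) - gg x (1 / x) - gg1 x (1 / x) * (1 / 2 - 1 / x) =
      ((x - 2) ^ 2 - (x - 1) ^ 2 * Real.log 2 + x / 2 * Real.log 2 +
        (x - 2) * (x - 1 / 2) * Real.log (x / (x - 1))) / (x - 1) := by
  have hx0 : x ≠ 0 := by linarith
  have hx1 : x - 1 ≠ 0 := by linarith
  have h1 : Real.log (1 / x / (1 - 1 / x)) = - Real.log (x - 1) := by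
    have : 1 / x / (1 - 1 / x) = (x - 1)⁻¹ := by
      rw [show 1 - 1 / x = (x - 1) / x by field_simp]
      field_simp
    rw [this, Real.log_inv]
  have h2 : Real.log (1 - 1 / x) = - Real.log (x / (x - 1)) := by
    have : 1 - 1 / x = (x / (x - 1))⁻¹ := by
      rw [inv_div]; field_simp
    rw [this, Real.log_inv]
  have h3 : Real.log ((1 : ℝ) / 2 / (1 - 1 / 2)) = 0 := by
    rw [show (1 : ℝ) / 2 / (1 - 1 / 2) = 1 by norm_num, Real.log_one]
  have h4 : Real.log ((1 : ℝ) - 1 / 2) = - Real.log 2 := by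
    rw [show (1 : ℝ) - 1 / 2 = 2⁻¹ by norm_num, Real.log_inv]
  simp only [gg, gg1]
  rw [h1, h2, h3, h4]
  rw [show 1 - 1 / x = (x - 1) / x by field_simp]
  generalize Real.log (x - 1) = l1
  generalize Real.log (x / (x - 1)) = l2
  generalize Real.log 2 = l3
  field_simp
  ring

theorem t_DHF : S_DHF := by
  intro N hN
  have hx : (2 : ℝ) ≤ N := by exact_mod_cast hN
  rw [dhf_eq N hx]
  apply div_nonneg _ (by linarith)
  have hl2 : Real.log 2 < 0.6931471808 := Real.log_two_lt_d9
  rcases Nat.lt_or_ge N 4 with h | h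
  · interval_cases N
    · push_cast
      norm_num
    · push_cast
      have e1 : Real.log ((3 : ℝ) / (3 - 1)) = Real.log 3 - Real.log 2 := by
        rw [show (3 : ℝ) - 1 = 2 by norm_num, Real.log_div (by norm_num) (by norm_num)]
      rw [e1]
      have e2 : Real.log ((4 : ℝ) / 3) ≤ 4 / 3 - 1 := Real.log_le_sub_one_of_pos (by norm_num)
      have e3 : Real.log ((4 : ℝ) / 3) = 2 * Real.log 2 - Real.log 3 := by
        rw [Real.log_div (by norm_num) (by norm_num), show (4 : ℝ) = 2 ^ 2 by norm_num, Real.log_pow]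
        push_cast; ring
      rw [e3] at e2
      nlinarith
  · have hx4 : (4 : ℝ) ≤ N := by exact_mod_cast h
    set x : ℝ := (N : ℝ) with hxdef
    have hx0 : 0 < x := by linarith
    have hx1 : 0 < x - 1 := by linarith
    have hL : 1 / x ≤ Real.log (x / (x - 1)) := by
      have h5 := Real.one_sub_inv_le_log_of_pos (show 0 < x / (x - 1) from div_pos hx0 hx1)
      have h6 : 1 - (x / (x - 1))⁻¹ = 1 / x := by
        rw [inv_div]; field_simp; ring
      rw [h6] at h5
      exact h5
    have h7 : (x - 2) * (x - 1 / 2) * (1 / x) ≤ (x - 2) * (x - 1 / 2) * Real.log (x / (x - 1)) := by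
      apply mul_le_mul_of_nonneg_left hL
      apply mul_nonneg <;> linarith
    have h8 : x - 5 / 2 ≤ (x - 2) * (x - 1 / 2) * (1 / x) := by
      rw [mul_one_div, le_div_iff₀ hx0]
      nlinarith
    have h9 : ((x - 1) ^ 2 - x / 2) * Real.log 2 ≤ ((x - 1) ^ 2 - x / 2) * 0.6931471808 := by
      apply mul_le_mul_of_nonneg_left hl2.le
      nlinarith
    have h10 : 0 ≤ (x - 2) ^ 2 - ((x - 1) ^ 2 - x / 2) * 0.6931471808 + (x - 5 / 2) := by
      nlinarith
    linarith

end H75.FL
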