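import Pool.Agent.H5.FL.Stm2

/-! # Crew FL, part STP: the stopped martingale identity for one coordinate -/

set_option autoImplicit false

open MeasureTheory ProbabilityTheory Filter Topology
open scoped NNReal ENNReal

universe u

namespace H75.FL

open H5.FL

/-- the shifted filtration -/
def shf {Ω : Type u} {mΩ : MeasurableSpace Ω} (f : Filtration ℝ≥0 mΩ) (s : ℝ≥0) :
    Filtration ℝ≥0 mΩ where
  seq r := f (s + r)
  mono' := fun _ _ h => f.mono (by gcongr)
  le' := fun _ => f.le _

theorem stp_cont {N : ℕ} (i : Fin N) : Continuous (fun x : Fin N → ℝ => x i - ⨆ k, x k) := by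
  have : Nonempty (Fin N) := ⟨i⟩
  have h1 : (fun x : Fin N → ℝ => x i - ⨆ k, x k) =
      fun x : Fin N → ℝ => x i - Finset.univ.sup' Finset.univ_nonempty (fun k => x k) := by
    funext x
    rw [Finset.sup'_univ_eq_ciSup]
  rw [h1]
  refine (continuous_apply i).sub ?_
  exact Continuous.finset_sup'_apply _ (fun k _ => continuous_apply k)

theorem stp_lin {N : ℕ} (μ : ℝ) : Continuous (lin (N := N) μ) := by
  unfold lin
  fun_prop

theorem stp_gen {N : ℕ} (μ : ℝ) (i : Fin N) (F : ℝ → ℝ) (x τ : Fin N → ℝ) (hit : Prop)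
    [Decidable hit] :
    gen μ (fun y : (Fin N → ℝ) × (Fin N → ℝ) => F (y.1 i)) x τ i hit =
      (1 / 2) * iteratedDeriv 2 F (x i) + (if hit then μ else 0) * deriv F (x i) := by
  unfold gen
  simp

theorem t_STP (hOPT : S_OPT.{u}) (hCOT : S_COT) (hCLK : S_CLK.{u}) : S_STP.{u} := by
  classical
  intro N μ Ω mΩ P hP π hN hFTL i F hF hFb s d A hA
  obtain ⟨c1, c2, c3, c4, c5, c6⟩ := hCLK N μ Ω P π
  obtain ⟨t1, t2, Kg, hKg⟩ := hCOT N μ i F hF hFb
  obtain ⟨KF, hKF⟩ := hFb
  have hAm : MeasurableSet A := π.full.le s _ hA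
  have hXfull : ∀ t, Measurable[π.full t] (π.X t) := fun t =>
    (π.X_adapted t).mono (π.obs_le t) le_rfl
  have hXm : ∀ t, Measurable (π.X t) := fun t => (hXfull t).mono (π.full.le t) le_rfl
  have hXj : Measurable (fun p : ℝ≥0 × Ω => π.X p.1 p.2) :=
    measurable_uncurry_of_continuous_of_measurable (u := fun t ω => π.X t ω) π.X_cont hXm
  have hjst : Measurable π.jstar := π.jstar_full.mono (π.full.le 0) le_rfl
  -- the drift
  let f : (Fin N → ℝ) × (Fin N → ℝ) → ℝ := fun y => F (y.1 i)
  let D : ℝ≥0 → Ω → ℝ := fun t ω =>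
    gen μ f (π.X t ω) (clock π.J t ω) (π.J t ω) (π.J t ω = π.jstar ω)
  have hD0 : ∀ t ω, π.J t ω ≠ i → D t ω = 0 := fun t ω h => t2 _ _ _ _ h
  have hDi : ∀ t ω, D t ω = if π.J t ω = i then
      ((1 / 2) * iteratedDeriv 2 F (π.X t ω i) + (if π.jstar ω = i then μ else 0) * deriv F (π.X t ω i))
      else 0 := by
    intro t ω
    by_cases h : π.J t ω = i
    · rw [if_pos h]
      show gen μ f (π.X t ω) (clock π.J t ω) (π.J t ω) (π.J t ω = π.jstar ω) = _
      have h2 : (π.J t ω = π.jstar ω) ↔ (π.jstar ω = i) := by rw [h]; exact eq_comm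
      have h3 : (if (π.J t ω = π.jstar ω) then μ else 0) = (if π.jstar ω = i then μ else 0) := by
        by_cases h4 : π.jstar ω = i
        · rw [if_pos h4, if_pos (h2.2 h4)]
        · rw [if_neg h4, if_neg (fun h5 => h4 (h2.1 h5))]
      rw [← h3]
      have h5 := stp_gen μ i F (π.X t ω) (clock π.J t ω) (π.J t ω = π.jstar ω)
      rw [← h5]
      congr 1
    · rw [if_neg h]; exact hD0 t ω h
  have hDb : ∀ t ω, |D t ω| ≤ Kg := fun t ω => hKg _ _ _ _
  have hDj : Measurable (fun p : ℝ≥0 × Ω => D p.1 p.2) := by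
    have h1 : (fun p : ℝ≥0 × Ω => D p.1 p.2) = fun p : ℝ≥0 × Ω => if π.J p.1 p.2 = i then
      ((1 / 2) * iteratedDeriv 2 F (π.X p.1 p.2 i) +
        (if π.jstar p.2 = i then μ else 0) * deriv F (π.X p.1 p.2 i)) else 0 := by
      funext p; exact hDi p.1 p.2
    rw [h1]
    have hXi : Measurable (fun p : ℝ≥0 × Ω => π.X p.1 p.2 i) := (measurable_pi_apply i).comp hXj
    refine Measurable.ite ?_ ?_ measurable_const
    · exact c4 (measurableSet_singleton i)
    · refine Measurable.add ?_ ?_
      · refine measurable_const.mul ?_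
        exact (hF.continuous_iteratedDeriv 2 (by norm_num)).measurable.comp hXi
      · refine Measurable.mul ?_ ((measurable_deriv F).comp hXi)
        refine Measurable.ite ?_ measurable_const measurable_const
        exact (hjst.comp measurable_snd) (measurableSet_singleton i)
  have hmart : Martingale (fun t ω => F (π.X t ω i) - ∫ r in (0 : ℝ)..t, D r.toNNReal ω)
      π.full P := π.dynamics f t1
  clear_value D
  have hDs : ∀ ω, Measurable (fun r : ℝ => D r.toNNReal ω) := fun ω =>
    hDj.comp (measurable_real_toNNReal.prodMk measurable_const)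
  have hDint : ∀ ω a b, IntervalIntegrable (fun r : ℝ => D r.toNNReal ω) volume a b := by
    intro ω a b
    rw [intervalIntegrable_iff]
    exact Measure.integrableOn_of_bounded (M := Kg) (by simp) (hDs ω).aestronglyMeasurable
      (Eventually.of_forall fun r => hDb _ _)
  -- the data for optional stopping
  let g : ℝ≥0 → Ω → ℝ := fun r ω => A.indicator (fun ω => F (π.X (s + r) ω i)) ω
  let ℓ : ℝ≥0 → Ω → ℝ := fun r ω => A.indicator (fun ω => D (s + r) ω) ω
  let m : ℝ≥0 → Ω → Fin 1 → ℝ := fun r ω _ => xi π (s + r) ω i - ⨆ k, xi π (s + r) ω k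
  have hxic : ∀ ω, Continuous fun r : ℝ≥0 => xi π r ω := by
    intro ω
    exact (stp_lin μ).comp ((π.X_cont ω).prodMk (c2 ω))
  have hxim : ∀ t, Measurable[π.full t] (xi π t) := by
    intro t
    have h1 : Measurable[π.full t] (clock π.J t) := (c1 t).mono (π.obs_le t) le_rfl
    exact (stp_lin μ).measurable.comp ((hXfull t).prodMk h1)
  have hFm : Measurable F := hF.continuous.measurable
  have hKF0 : ∀ x, |F x| ≤ max KF Kg := fun x => (hKF x).1.trans (le_max_left _ _)
  have hKnn : 0 ≤ max KF Kg := (abs_nonneg _).trans (hKF0 0)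
  have intb : ∀ (Z : Ω → ℝ) (B : ℝ), Measurable Z → (∀ ω, |Z ω| ≤ B) → Integrable Z P := by
    intro Z B hZ hZB
    exact Integrable.of_bound hZ.aestronglyMeasurable B (Eventually.of_forall hZB)
  have hFXm : ∀ t, Measurable (fun ω => F (π.X t ω i)) := fun t =>
    hFm.comp ((measurable_pi_apply i).comp (hXm t))
  have hFXi : ∀ t, Integrable (fun ω => F (π.X t ω i)) P := fun t =>
    intb _ _ (hFXm t) (fun ω => hKF0 _)
  have hΛi : ∀ t : ℝ≥0, Integrable (fun ω => ∫ r in (0 : ℝ)..t, D r.toNNReal ω) P := by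
    intro t
    have h1 := (hFXi t).sub (hmart.integrable t)
    refine h1.congr (Eventually.of_forall fun ω => ?_)
    simp
  have key := hOPT Ω P (shf π.full s) 1 g ℓ m (max KF Kg) 0
    (by
      intro ω
      by_cases h : ω ∈ A
      · have : (fun t => g t ω) = fun t => F (π.X (s + t) ω i) := by
          funext t; simp only [g, Set.indicator_of_mem h]
        rw [this]
        exact hF.continuous.comp ((continuous_apply i).comp ((π.X_cont ω).comp
          (continuous_const.add continuous_id)))
      · have : (fun t => g t ω) = fun t => 0 := by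
          funext t; simp only [g, Set.indicator_of_notMem h]
        rw [this]; exact continuous_const)
    (by
      intro ω
      refine continuous_pi fun _ => ?_
      exact (stp_cont i).comp ((hxic ω).comp (continuous_const.add continuous_id)))
    (by
      intro t
      have hA' : MeasurableSet[π.full (s + t)] A := π.full.mono (by simp) _ hA
      have h1 : Measurable[π.full (s + t)] (fun ω => F (π.X (s + t) ω i)) :=
        hFm.comp ((measurable_pi_apply i).comp (hXfull (s + t)))
      exact h1.indicator hA')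
    (by
      intro t
      have h1 : Measurable[π.full (s + t)] (fun ω => xi π (s + t) ω i - ⨆ k, xi π (s + t) ω k) :=
        (stp_cont i).measurable.comp (hxim (s + t))
      exact @measurable_pi_lambda _ _ _ (π.full (s + t)) _ _ (fun _ => h1))
    (by
      intro t ω
      by_cases h : ω ∈ A
      · simp only [g, Set.indicator_of_mem h]; exact hKF0 _
      · simp only [g, Set.indicator_of_notMem h, abs_zero]; exact hKnn)
    (by
      intro t ω
      by_cases h : ω ∈ A
      · simp only [ℓ, Set.indicator_of_mem h]; exact (hDb _ _).trans (le_max_right _ _)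
      · simp only [ℓ, Set.indicator_of_notMem h, abs_zero]; exact hKnn)
    (by
      have h1 : (Function.uncurry ℓ) = Set.indicator (Prod.snd ⁻¹' A)
          (fun p : ℝ≥0 × Ω => D (s + p.1) p.2) := by
        funext p
        rcases p with ⟨r, ω⟩
        by_cases h : ω ∈ A
        · have h2 : ((r, ω) : ℝ≥0 × Ω) ∈ (Prod.snd ⁻¹' A) := h
          rw [Set.indicator_of_mem h2]
          simp only [Function.uncurry, ℓ, Set.indicator_of_mem h]
        · have h2 : ((r, ω) : ℝ≥0 × Ω) ∉ (Prod.snd ⁻¹' A) := h
          rw [Set.indicator_of_notMem h2]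
          simp only [Function.uncurry, ℓ, Set.indicator_of_notMem h]
      rw [h1]
      refine Measurable.indicator ?_ (measurable_snd hAm)
      exact hDj.comp ((measurable_const.add measurable_fst).prodMk measurable_snd))
    (by
      intro r1 r2 h12 B hB
      have hBm : MeasurableSet B := π.full.le (s + r1) _ hB
      have hAB : MeasurableSet[π.full (s + r1)] (A ∩ B) :=
        MeasurableSet.inter (π.full.mono (by simp) _ hA) hB
      have e0 := hmart.setIntegral_eq (show s + r1 ≤ s + r2 by gcongr) hAB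
      have e1 : ∫ ω in B, (g r2 ω - g r1 ω) ∂P =
          ∫ ω in A ∩ B, (F (π.X (s + r2) ω i) - F (π.X (s + r1) ω i)) ∂P := by
        have h1 : (fun ω => g r2 ω - g r1 ω) = A.indicator
            (fun ω => F (π.X (s + r2) ω i) - F (π.X (s + r1) ω i)) := by
          funext ω
          by_cases h : ω ∈ A
          · simp only [g, Set.indicator_of_mem h]
          · simp only [g, Set.indicator_of_notMem h, sub_zero]
        rw [h1, setIntegral_indicator hAm, Set.inter_comm]
      have e2 : ∫ ω in B, (∫ r in (r1 : ℝ)..r2, ℓ r.toNNReal ω) ∂P =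
          ∫ ω in A ∩ B, ((∫ r in (0 : ℝ)..((s + r2 : ℝ≥0) : ℝ), D r.toNNReal ω) -
            ∫ r in (0 : ℝ)..((s + r1 : ℝ≥0) : ℝ), D r.toNNReal ω) ∂P := by
        have h1 : (fun ω => ∫ r in (r1 : ℝ)..r2, ℓ r.toNNReal ω) = A.indicator
            (fun ω => (∫ r in (0 : ℝ)..((s + r2 : ℝ≥0) : ℝ), D r.toNNReal ω) -
            ∫ r in (0 : ℝ)..((s + r1 : ℝ≥0) : ℝ), D r.toNNReal ω) := by
          funext ω
          by_cases h : ω ∈ A
          · rw [Set.indicator_of_mem h]
            simp only [ℓ, Set.indicator_of_mem h]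
            rw [intervalIntegral.integral_interval_sub_left (hDint ω _ _) (hDint ω _ _)]
            rw [NNReal.coe_add, NNReal.coe_add,
              ← intervalIntegral.integral_comp_add_left (fun r => D r.toNNReal ω) (s : ℝ)]
            refine intervalIntegral.integral_congr fun r hr => ?_
            have hr0 : 0 ≤ r := by
              rw [Set.uIcc_of_le (by exact_mod_cast h12)] at hr
              exact r1.2.trans hr.1
            have e3 : ((s : ℝ) + r).toNNReal = s + r.toNNReal := by
              rw [Real.toNNReal_add (NNReal.coe_nonneg s) hr0, Real.toNNReal_coe]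
            rw [e3]
          · rw [Set.indicator_of_notMem h]
            simp only [ℓ, Set.indicator_of_notMem h, intervalIntegral.integral_zero]
        rw [h1, setIntegral_indicator hAm, Set.inter_comm]
      rw [e1, e2]
      rw [integral_sub (hFXi _).integrableOn (hFXi _).integrableOn,
        integral_sub (hΛi _).integrableOn (hΛi _).integrableOn]
      rw [integral_sub (hFXi _).integrableOn (hΛi _).integrableOn,
        integral_sub (hFXi _).integrableOn (hΛi _).integrableOn] at e0
      linarith)
    d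
  -- the right-hand side vanishes
  have hrhs : ∫ ω, (∫ r in (0 : ℝ)..((min (hT 0 m ω) (d : ℝ≥0∞)).toNNReal : ℝ),
      ℓ r.toNNReal ω) ∂P = 0 := by
    have h0 : ∀ᵐ ω ∂P, (∫ r in (0 : ℝ)..((min (hT 0 m ω) (d : ℝ≥0∞)).toNNReal : ℝ),
        ℓ r.toNNReal ω) = 0 := by
      filter_upwards [hFTL] with ω hω
      rw [intervalIntegral.integral_of_le (NNReal.coe_nonneg _), integral_Ioc_eq_integral_Ioo]
      refine setIntegral_eq_zero_of_forall_eq_zero fun r hr => ?_
      have hr0 : 0 ≤ r := hr.1.le
      have hlt : ((r.toNNReal : ℝ≥0) : ℝ≥0∞) < hT 0 m ω := by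
        have h1 : r.toNNReal < (min (hT 0 m ω) (d : ℝ≥0∞)).toNNReal := by
          rw [← NNReal.coe_lt_coe, Real.coe_toNNReal _ hr0]; exact hr.2
        have h2 : ((r.toNNReal : ℝ≥0) : ℝ≥0∞) < min (hT 0 m ω) (d : ℝ≥0∞) := by
          rw [← ENNReal.coe_toNNReal (ne_of_lt (lt_of_le_of_lt (min_le_right (hT 0 m ω) (d : ℝ≥0∞))
            ENNReal.coe_lt_top))]
          exact_mod_cast h1
        exact lt_of_lt_of_le h2 (min_le_left _ _)
      have hneg : m r.toNNReal ω 0 < 0 := by
        by_contra hc
        rw [not_lt] at hc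
        have : hT 0 m ω ≤ ((r.toNNReal : ℝ≥0) : ℝ≥0∞) := by
          unfold hT
          exact iInf₂_le r.toNNReal ⟨0, hc⟩
        exact absurd hlt (not_lt.2 this)
      have hJ : π.J (s + r.toNNReal) ω ≠ i := by
        intro hJ
        have h1 : ∀ k, xi π (s + r.toNNReal) ω k ≤ xi π (s + r.toNNReal) ω i := by
          intro k
          have h2 := hω (s + r.toNNReal) k
          rw [hJ, c6] at h2
          unfold sm at h2
          have h3 : 0 < ∑ k, Real.exp (lin μ (π.X (s + r.toNNReal) ω, clock π.J (s + r.toNNReal) ω) k) :=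
            Finset.sum_pos (fun k _ => Real.exp_pos _) ⟨i, Finset.mem_univ _⟩
          rw [div_le_div_iff_of_pos_right h3] at h2
          exact Real.exp_le_exp.1 h2
        have : Nonempty (Fin N) := ⟨i⟩
        have h4 : ⨆ k, xi π (s + r.toNNReal) ω k ≤ xi π (s + r.toNNReal) ω i := ciSup_le h1
        have h5 : xi π (s + r.toNNReal) ω i - ⨆ k, xi π (s + r.toNNReal) ω k < 0 := hneg
        linarith
      by_cases h : ω ∈ A
      · simp only [ℓ, Set.indicator_of_mem h]; exact hD0 _ _ hJ
      · simp only [ℓ, Set.indicator_of_notMem h]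
    rw [integral_congr_ae h0, integral_zero]
  rw [hrhs] at key
  have e1 : ∫ ω, g (min (hT 0 m ω) (d : ℝ≥0∞)).toNNReal ω ∂P =
      ∫ ω in A, F (π.X (s + (min (hT 0 m ω) (d : ℝ≥0∞)).toNNReal) ω i) ∂P := by
    rw [← integral_indicator hAm]
    refine integral_congr_ae (Eventually.of_forall fun ω => ?_)
    by_cases h : ω ∈ A
    · simp only [g, Set.indicator_of_mem h]
    · simp only [g, Set.indicator_of_notMem h]
  have e2 : ∫ ω, g 0 ω ∂P = ∫ ω in A, F (π.X s ω i) ∂P := by
    rw [← integral_indicator hAm]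
    congr 1
    funext ω
    by_cases h : ω ∈ A
    · rw [Set.indicator_of_mem h]; simp only [g, Set.indicator_of_mem h, add_zero]
    · rw [Set.indicator_of_notMem h]; simp only [g, Set.indicator_of_notMem h]
  rw [e1, e2] at key
  have key2 : ∫ ω in A, F (π.X (s + (min (hT 0 m ω) (d : ℝ≥0∞)).toNNReal) ω i) ∂P =
      ∫ ω in A, F (π.X s ω i) ∂P := by linarith
  exact key2

end H75.FL
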